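import Mathlib

set_option autoImplicit false

namespace Pool.Agent.Hhelper55.TripleCover

/-- The triples of `Fin n` can be covered by `m` 3-graphs, none of which contains
the complete 3-graph on four vertices. -/
def Covers3 (n m : ℕ) : Prop :=
  ∃ H : Fin m → Set (Finset (Fin n)),
    (∀ i, ∀ e ∈ H i, e.card = 3) ∧
    (∀ i, ¬ ∃ T : Finset (Fin n), T.card = 4 ∧ ∀ e : Finset (Fin n), e ⊆ T → e.card = 3 → e ∈ H i) ∧
    (∀ e : Finset (Fin n), e.card = 3 → ∃ i, e ∈ H i)

/-- `f3 n` is the least number of such 3-graphs. -/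
noncomputable def f3 (n : ℕ) : ℕ := sInf {m | Covers3 n m}

/-- The edges of the complete graph on `Fin N` can be covered by `m` triangle-free graphs. -/
def Covers2 (N m : ℕ) : Prop :=
  ∃ G : Fin m → SimpleGraph (Fin N),
    (∀ i, (G i).CliqueFree 3) ∧ (∀ a b : Fin N, a ≠ b → ∃ i, (G i).Adj a b)

/-- `f2 N` is the least number of triangle-free graphs covering the complete graph on
`N` vertices. -/
noncomputable def f2 (N : ℕ) : ℕ := sInf {m | Covers2 N m}

lemma cliqueFree3_of {V : Type} [DecidableEq V] (G : SimpleGraph V)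
    (h : ∀ a b c : V, G.Adj a b → G.Adj b c → G.Adj a c → False) : G.CliqueFree 3 := by
  intro s hs
  rw [SimpleGraph.is3Clique_iff] at hs
  obtain ⟨a, b, c, hab, hac, hbc, -⟩ := hs
  exact h a b c hab hbc hac

lemma no_triangle {V : Type} [DecidableEq V] {G : SimpleGraph V} (h : G.CliqueFree 3) {a b c : V}
    (hab : G.Adj a b) (hbc : G.Adj b c) (hac : G.Adj a c) : False := by
  apply h {a, b, c}
  rw [SimpleGraph.is3Clique_iff]
  exact ⟨a, b, c, hab, hac, hbc, rfl⟩

/-- Bit graphs: `clog 2 N` bipartite graphs suffice. -/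
lemma covers2_clog (N : ℕ) : Covers2 N (Nat.clog 2 N) := by
  refine ⟨fun i => ⟨fun a b => a.val.testBit i.val ≠ b.val.testBit i.val,
    ⟨fun a b h => h.symm⟩, ⟨fun a h => h rfl⟩⟩, ?_, ?_⟩
  · intro i
    apply cliqueFree3_of
    intro a b c hab hbc hac
    change a.val.testBit i.val ≠ b.val.testBit i.val at hab
    change b.val.testBit i.val ≠ c.val.testBit i.val at hbc
    change a.val.testBit i.val ≠ c.val.testBit i.val at hac
    cases h1 : a.val.testBit i.val <;> cases h2 : b.val.testBit i.val <;>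
      cases h3 : c.val.testBit i.val <;> simp_all
  · intro a b hab
    by_contra hcon
    push Not at hcon
    apply hab
    apply Fin.ext
    apply Nat.eq_of_testBit_eq
    intro i
    by_cases hi : i < Nat.clog 2 N
    · have := hcon ⟨i, hi⟩
      by_contra h
      exact this h
    · have h1 : N ≤ 2 ^ Nat.clog 2 N := Nat.le_pow_clog (by norm_num) N
      have h2 : 2 ^ Nat.clog 2 N ≤ 2 ^ i := Nat.pow_le_pow_right (by norm_num) (by omega)
      rw [Nat.testBit_lt_two_pow (by omega), Nat.testBit_lt_two_pow (by omega)]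

lemma f2_le {N m : ℕ} (h : Covers2 N m) : f2 N ≤ m := Nat.sInf_le h

lemma f2_spec (N : ℕ) : Covers2 N (f2 N) := Nat.sInf_mem (s := {m | Covers2 N m}) ⟨_, covers2_clog N⟩

lemma f2_le_clog (N : ℕ) : f2 N ≤ Nat.clog 2 N := f2_le (covers2_clog N)

lemma covers2_mono {M N m : ℕ} (hMN : M ≤ N) (h : Covers2 N m) : Covers2 M m := by
  obtain ⟨G, hG, hc⟩ := h
  refine ⟨fun i => (G i).comap (Fin.castLE hMN), ?_, ?_⟩
  · intro i
    apply cliqueFree3_of
    intro a b c hab hbc hac
    exact no_triangle (hG i) hab hbc hac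
  · intro a b hab
    obtain ⟨i, hi⟩ := hc (Fin.castLE hMN a) (Fin.castLE hMN b)
      (fun h => hab (Fin.castLE_injective hMN h))
    exact ⟨i, hi⟩

lemma f2_mono {M N : ℕ} (hMN : M ≤ N) : f2 M ≤ f2 N := f2_le (covers2_mono hMN (f2_spec N))

lemma covers2_mul {A B p q : ℕ} (hA : Covers2 A p) (hB : Covers2 B q) :
    Covers2 (A * B) (p + q) := by
  classical
  obtain ⟨G, hG, hGc⟩ := hA
  obtain ⟨H, hH, hHc⟩ := hB
  refine ⟨Fin.addCases
    (fun i => (G i).comap (fun x : Fin (A * B) => (finProdFinEquiv.symm x).1))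
    (fun j => ⟨fun x y => (finProdFinEquiv.symm x).1 = (finProdFinEquiv.symm y).1 ∧
      (H j).Adj (finProdFinEquiv.symm x).2 (finProdFinEquiv.symm y).2,
      ⟨fun x y h => ⟨h.1.symm, h.2.symm⟩⟩, ⟨fun x h => (H j).loopless.irrefl _ h.2⟩⟩), ?_, ?_⟩
  · intro i
    refine Fin.addCases (fun i => ?_) (fun j => ?_) i
    · simp only [Fin.addCases_left]
      apply cliqueFree3_of
      intro a b c hab hbc hac
      exact no_triangle (hG i) hab hbc hac
    · simp only [Fin.addCases_right]
      apply cliqueFree3_of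
      intro a b c hab hbc hac
      exact no_triangle (hH j) hab.2 hbc.2 hac.2
  · intro x y hxy
    by_cases h : (finProdFinEquiv.symm x).1 = (finProdFinEquiv.symm y).1
    · have h2 : (finProdFinEquiv.symm x).2 ≠ (finProdFinEquiv.symm y).2 := by
        intro h2
        apply hxy
        apply finProdFinEquiv.symm.injective
        exact Prod.ext h h2
      obtain ⟨j, hj⟩ := hHc _ _ h2
      refine ⟨Fin.natAdd p j, ?_⟩
      simp only [Fin.addCases_right]
      exact ⟨h, hj⟩
    · obtain ⟨i, hi⟩ := hGc _ _ h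
      refine ⟨Fin.castAdd q i, ?_⟩
      simp only [Fin.addCases_left]
      exact hi

lemma f2_cube (N : ℕ) : f2 (N ^ 3) ≤ 3 * f2 N := by
  have h := f2_spec N
  have h2 := covers2_mul (covers2_mul h h) h
  have e1 : N * N * N = N ^ 3 := by ring
  rw [e1] at h2
  have h3 := f2_le h2
  omega

/-! ### Stepping up -/

lemma exists_div (x y : ℕ) : ∃ d, x / 2 ^ (d + 1) = y / 2 ^ (d + 1) := by
  refine ⟨x + y, ?_⟩
  have h1 : x + y + 1 < 2 ^ (x + y + 1) := Nat.lt_two_pow_self
  rw [Nat.div_eq_of_lt (by omega), Nat.div_eq_of_lt (by omega)]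

/-- The highest binary digit in which `x` and `y` differ. -/
def dlt (x y : ℕ) : ℕ := Nat.find (exists_div x y)

lemma dlt_spec (x y : ℕ) : x / 2 ^ (dlt x y + 1) = y / 2 ^ (dlt x y + 1) :=
  Nat.find_spec (exists_div x y)

lemma dlt_ge {x y d : ℕ} (h : dlt x y ≤ d) : x / 2 ^ (d + 1) = y / 2 ^ (d + 1) := by
  obtain ⟨k, rfl⟩ := Nat.exists_eq_add_of_le h
  have e : 2 ^ (dlt x y + k + 1) = 2 ^ (dlt x y + 1) * 2 ^ k := by ring
  rw [e, ← Nat.div_div_eq_div_mul, ← Nat.div_div_eq_div_mul, dlt_spec]

lemma dlt_lt {x y d : ℕ} (h : d < dlt x y) : x / 2 ^ (d + 1) ≠ y / 2 ^ (d + 1) :=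
  Nat.find_min (exists_div x y) h

lemma dlt_lt_of_lt {x y N : ℕ} (hx : x < 2 ^ N) (hy : y < 2 ^ N) (hN : 0 < N) : dlt x y < N := by
  have : dlt x y ≤ N - 1 := by
    apply Nat.find_min'
    have e : N - 1 + 1 = N := by omega
    rw [e, Nat.div_eq_of_lt hx, Nat.div_eq_of_lt hy]
  omega

lemma dlt_ne {x y z : ℕ} (hxy : x < y) (hyz : y < z) : dlt x y ≠ dlt y z := by
  intro h
  have h1 := dlt_spec x y
  have h2 := dlt_spec y z
  rw [← h] at h2
  rcases Nat.eq_zero_or_pos (dlt x y) with h0 | h0
  · rw [h0] at h1 h2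
    omega
  · obtain ⟨k, hk⟩ : ∃ k, dlt x y = k + 1 := ⟨dlt x y - 1, by omega⟩
    have h3 : x / 2 ^ (k + 1) ≠ y / 2 ^ (k + 1) := dlt_lt (by omega)
    have h4 : y / 2 ^ (k + 1) ≠ z / 2 ^ (k + 1) := dlt_lt (by omega)
    have h5 : x / 2 ^ (k + 1) ≤ y / 2 ^ (k + 1) := Nat.div_le_div_right hxy.le
    have h6 : y / 2 ^ (k + 1) ≤ z / 2 ^ (k + 1) := Nat.div_le_div_right hyz.le
    have e : ∀ w : ℕ, w / 2 ^ (dlt x y + 1) = w / 2 ^ (k + 1) / 2 := by
      intro w
      rw [Nat.div_div_eq_div_mul, hk]
      congr 1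
    rw [e, e] at h1
    rw [e, e] at h2
    omega

lemma dlt_max {x y z : ℕ} (hxy : x < y) (hyz : y < z) : dlt x z = max (dlt x y) (dlt y z) := by
  apply le_antisymm
  · apply Nat.find_min'
    rw [dlt_ge (le_max_left (dlt x y) (dlt y z)), dlt_ge (le_max_right (dlt x y) (dlt y z))]
  · by_contra hcon
    push Not at hcon
    have h1 := dlt_spec x z
    have h5 : x / 2 ^ (dlt x z + 1) ≤ y / 2 ^ (dlt x z + 1) := Nat.div_le_div_right hxy.le
    have h6 : y / 2 ^ (dlt x z + 1) ≤ z / 2 ^ (dlt x z + 1) := Nat.div_le_div_right hyz.le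
    rcases lt_max_iff.1 hcon with h | h
    · exact dlt_lt h (by omega)
    · exact dlt_lt h (by omega)

/-- Any finset with four elements of a linear order can be listed increasingly. -/
lemma four_sorted {n : ℕ} (T : Finset (Fin n)) (hT : T.card = 4) :
    ∃ x y z w : Fin n, x < y ∧ y < z ∧ z < w ∧ T = {x, y, z, w} := by
  refine ⟨T.orderEmbOfFin hT 0, T.orderEmbOfFin hT 1, T.orderEmbOfFin hT 2,
    T.orderEmbOfFin hT 3, ?_, ?_, ?_, ?_⟩
  · exact (T.orderEmbOfFin hT).strictMono (by decide)
  · exact (T.orderEmbOfFin hT).strictMono (by decide)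
  · exact (T.orderEmbOfFin hT).strictMono (by decide)
  · have h := Finset.range_orderEmbOfFin T hT
    ext a
    have : a ∈ T ↔ a ∈ Set.range (T.orderEmbOfFin hT) := by rw [h]; rfl
    rw [this]
    simp only [Set.mem_range, Finset.mem_insert, Finset.mem_singleton]
    constructor
    · rintro ⟨i, rfl⟩
      fin_cases i <;> simp
    · rintro (rfl | rfl | rfl | rfl) <;> exact ⟨_, rfl⟩

lemma three_sorted {n : ℕ} (T : Finset (Fin n)) (hT : T.card = 3) :
    ∃ x y z : Fin n, x < y ∧ y < z ∧ T = {x, y, z} := by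
  refine ⟨T.orderEmbOfFin hT 0, T.orderEmbOfFin hT 1, T.orderEmbOfFin hT 2, ?_, ?_, ?_⟩
  · exact (T.orderEmbOfFin hT).strictMono (by decide)
  · exact (T.orderEmbOfFin hT).strictMono (by decide)
  · have h := Finset.range_orderEmbOfFin T hT
    ext a
    have : a ∈ T ↔ a ∈ Set.range (T.orderEmbOfFin hT) := by rw [h]; rfl
    rw [this]
    simp only [Set.mem_range, Finset.mem_insert, Finset.mem_singleton]
    constructor
    · rintro ⟨i, rfl⟩
      fin_cases i <;> simp
    · rintro (rfl | rfl | rfl) <;> exact ⟨_, rfl⟩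

lemma triple_unique {n : ℕ} {x y z x' y' z' : Fin n} (h1 : x < y) (h2 : y < z) (h1' : x' < y')
    (h2' : y' < z') (h : ({x, y, z} : Finset (Fin n)) = {x', y', z'}) :
    x = x' ∧ y = y' ∧ z = z' := by
  have a1 : x ∈ ({x', y', z'} : Finset (Fin n)) := by rw [← h]; simp
  have a2 : y ∈ ({x', y', z'} : Finset (Fin n)) := by rw [← h]; simp
  have a3 : z ∈ ({x', y', z'} : Finset (Fin n)) := by rw [← h]; simp
  simp only [Finset.mem_insert, Finset.mem_singleton] at a1 a2 a3
  have h3 := h1.trans h2
  have h3' := h1'.trans h2'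
  simp only [Fin.lt_def, Fin.ext_iff] at *
  omega

lemma stepUp {n N m : ℕ} (hn : n ≤ 2 ^ N) (hN : 0 < N) (h : Covers2 N m) :
    Covers3 n (2 * m) := by
  classical
  obtain ⟨G, hG, hc⟩ := h
  have hd : ∀ x y : Fin n, dlt x.val y.val < N := fun x y =>
    dlt_lt_of_lt (by omega) (by omega) hN
  set D : Fin n → Fin n → Fin N := fun x y => ⟨dlt x.val y.val, hd x y⟩ with hD
  refine ⟨fun i => {e | ∃ x y z : Fin n, x < y ∧ y < z ∧ e = {x, y, z} ∧
    (G (finProdFinEquiv.symm i).2).Adj (D x y) (D y z) ∧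
    ((finProdFinEquiv.symm i).1 = 0 ↔ D x y < D y z)}, ?_, ?_, ?_⟩
  · rintro i e ⟨x, y, z, hxy, hyz, rfl, -⟩
    rw [Finset.card_eq_three]
    exact ⟨x, y, z, hxy.ne, (hxy.trans hyz).ne, hyz.ne, rfl⟩
  · rintro i ⟨T, hT, hall⟩
    obtain ⟨x, y, z, w, hxy, hyz, hzw, rfl⟩ := four_sorted T hT
    have key : ∀ a b c : Fin n, a < b → b < c → ({a, b, c} : Finset (Fin n)) ⊆ {x, y, z, w} →
        (G (finProdFinEquiv.symm i).2).Adj (D a b) (D b c) ∧
        ((finProdFinEquiv.symm i).1 = 0 ↔ D a b < D b c) := by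
      intro a b c hab hbc hsub
      obtain ⟨a', b', c', h1, h2, h3, h4, h5⟩ := hall {a, b, c} hsub (by
        rw [Finset.card_eq_three]
        exact ⟨a, b, c, hab.ne, (hab.trans hbc).ne, hbc.ne, rfl⟩)
      obtain ⟨rfl, rfl, rfl⟩ := triple_unique hab hbc h1 h2 h3
      exact ⟨h4, h5⟩
    obtain ⟨a1, s1⟩ := key x y z hxy hyz (by
      intro t ht; simp only [Finset.mem_insert, Finset.mem_singleton] at ht ⊢; tauto)
    obtain ⟨a2, s2⟩ := key y z w hyz hzw (by
      intro t ht; simp only [Finset.mem_insert, Finset.mem_singleton] at ht ⊢; tauto)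
    obtain ⟨a3, s3⟩ := key x y w hxy (hyz.trans hzw) (by
      intro t ht; simp only [Finset.mem_insert, Finset.mem_singleton] at ht ⊢; tauto)
    obtain ⟨a4, s4⟩ := key x z w (hxy.trans hyz) hzw (by
      intro t ht; simp only [Finset.mem_insert, Finset.mem_singleton] at ht ⊢; tauto)
    have n1 : D x y ≠ D y z := by
      intro h
      exact dlt_ne (Fin.lt_def.1 hxy) (Fin.lt_def.1 hyz) (congrArg Fin.val h)
    have n2 : D y z ≠ D z w := by
      intro h
      exact dlt_ne (Fin.lt_def.1 hyz) (Fin.lt_def.1 hzw) (congrArg Fin.val h)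
    have m1 : D x z = max (D x y) (D y z) := by
      apply Fin.ext
      rw [Fin.coe_max]
      exact dlt_max (Fin.lt_def.1 hxy) (Fin.lt_def.1 hyz)
    have m2 : D y w = max (D y z) (D z w) := by
      apply Fin.ext
      rw [Fin.coe_max]
      exact dlt_max (Fin.lt_def.1 hyz) (Fin.lt_def.1 hzw)
    by_cases h0 : (finProdFinEquiv.symm i).1 = 0
    · have l1 : D x y < D y z := s1.1 h0
      have l2 : D y z < D z w := s2.1 h0
      rw [max_eq_right l2.le] at m2
      rw [m2] at a3
      exact no_triangle (hG _) a1 a2 a3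
    · have l1 : D y z < D x y := lt_of_le_of_ne (not_lt.1 (fun h => h0 (s1.2 h))) n1.symm
      have l2 : D z w < D y z := lt_of_le_of_ne (not_lt.1 (fun h => h0 (s2.2 h))) n2.symm
      rw [max_eq_left l1.le] at m1
      rw [m1] at a4
      exact no_triangle (hG _) a1 a2 a4
  · intro e he
    obtain ⟨x, y, z, hxy, hyz, rfl⟩ := three_sorted e he
    have n1 : D x y ≠ D y z := by
      intro h
      exact dlt_ne (Fin.lt_def.1 hxy) (Fin.lt_def.1 hyz) (congrArg Fin.val h)
    obtain ⟨j, hj⟩ := hc _ _ n1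
    by_cases h : D x y < D y z
    · exact ⟨finProdFinEquiv (0, j), x, y, z, hxy, hyz, rfl, by simpa using hj, by simpa using h⟩
    · exact ⟨finProdFinEquiv (1, j), x, y, z, hxy, hyz, rfl, by simpa using hj, by simpa using h⟩

lemma f3_le {n m : ℕ} (h : Covers3 n m) : f3 n ≤ m := Nat.sInf_le h

lemma covers3_small {n : ℕ} (hn : n < 3) (m : ℕ) : Covers3 n m := by
  refine ⟨fun _ => ∅, by simp, ?_, ?_⟩
  · rintro i ⟨T, hT, -⟩
    have := Finset.card_le_univ T
    simp at this
    omega
  · intro e he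
    have := Finset.card_le_univ e
    simp at this
    omega

lemma covers3_two_mul (n : ℕ) : Covers3 n (2 * f2 (Nat.clog 2 n)) := by
  rcases Nat.lt_or_ge n 3 with h | h
  · exact covers3_small h _
  · apply stepUp (Nat.le_pow_clog (by norm_num) n) _ (f2_spec _)
    exact Nat.clog_pos (by norm_num) (by omega)

lemma f3_spec (n : ℕ) : Covers3 n (f3 n) :=
  Nat.sInf_mem (s := {m | Covers3 n m}) ⟨_, covers3_two_mul n⟩

theorem f3_upper (n : ℕ) : f3 n ≤ 2 * f2 (Nat.clog 2 n) := f3_le (covers3_two_mul n)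

/-! ### Stepping down (Erdős–Rado) -/

/-- The size needed after `t` steps. -/
def need (m N t : ℕ) : ℕ := (N + 1 - t) * m ^ (∑ i ∈ Finset.Ico t N, i)

lemma need_step {m N t : ℕ} (hm : 0 < m) (ht : t < N) :
    m ^ t * need m N (t + 1) + 1 ≤ need m N t := by
  unfold need
  rw [Finset.sum_eq_sum_Ico_succ_bot ht, pow_add]
  have h1 : 0 < m ^ t := Nat.pow_pos hm
  have h2 : 0 < m ^ (∑ i ∈ Finset.Ico (t + 1) N, i) := Nat.pow_pos hm
  have h3 : N + 1 - t = (N + 1 - (t + 1)) + 1 := by omega
  rw [h3]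
  have h4 : 0 < m ^ t * m ^ (∑ i ∈ Finset.Ico (t + 1) N, i) := Nat.mul_pos h1 h2
  calc m ^ t * ((N + 1 - (t + 1)) * m ^ (∑ i ∈ Finset.Ico (t + 1) N, i)) + 1
      ≤ m ^ t * ((N + 1 - (t + 1)) * m ^ (∑ i ∈ Finset.Ico (t + 1) N, i)) +
        m ^ t * m ^ (∑ i ∈ Finset.Ico (t + 1) N, i) := by omega
    _ = _ := by ring

lemma greedy {n m N : ℕ} (hm : 0 < m) (hn : need m N 0 ≤ n) (col : Finset (Fin n) → Fin m) :
    ∀ t ≤ N, ∃ (v : ℕ → Fin n) (S : Finset (Fin n)) (φ : ℕ → ℕ → Fin m),
      (∀ i < t, v i ∉ S) ∧ (∀ i j, i < j → j < t → v i ≠ v j) ∧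
      (∀ i j, i < j → j < t → ∀ w ∈ S, col {v i, v j, w} = φ i j) ∧
      (∀ i j k, i < j → j < k → k < t → col {v i, v j, v k} = φ i j) ∧
      need m N t ≤ S.card := by
  classical
  intro t
  induction t with
  | zero =>
    intro _
    have hpos : 0 < n := by
      refine lt_of_lt_of_le ?_ hn
      unfold need
      exact Nat.mul_pos (by omega) (Nat.pow_pos hm)
    refine ⟨fun _ => ⟨0, hpos⟩, Finset.univ, fun _ _ => ⟨0, hm⟩, ?_, ?_, ?_, ?_, ?_⟩
    · intro i hi; omega
    · intro i j _ hj; omega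
    · intro i j _ hj; omega
    · intro i j k _ _ hk; omega
    · simpa using hn
  | succ t ih =>
    intro ht
    obtain ⟨v, S, φ, h1, h2, h3, h4, h5⟩ := ih (by omega)
    have hstep := need_step (m := m) (N := N) (t := t) hm (by omega)
    have hSpos : S.Nonempty := by
      rw [← Finset.card_pos]
      omega
    obtain ⟨x, hx⟩ := hSpos
    have hcard : m ^ t * need m N (t + 1) ≤ (S.erase x).card := by
      rw [Finset.card_erase_of_mem hx]
      omega
    let f : Fin n → (Fin t → Fin m) := fun w i => col {v i.val, x, w}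
    obtain ⟨g, -, hg⟩ := Finset.exists_le_card_fiber_of_mul_le_card_of_maps_to
      (s := S.erase x) (t := (Finset.univ : Finset (Fin t → Fin m))) (f := f)
      (n := need m N (t + 1)) (fun _ _ => Finset.mem_univ _)
      ⟨fun _ => ⟨0, hm⟩, Finset.mem_univ _⟩ (by
        rw [Finset.card_univ, Fintype.card_fun, Fintype.card_fin, Fintype.card_fin]
        exact hcard)
    refine ⟨fun i => if i = t then x else v i, (S.erase x).filter (fun w => f w = g),
      fun i j => if j = t then (if h : i < t then g ⟨i, h⟩ else ⟨0, hm⟩) else φ i j,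
      ?_, ?_, ?_, ?_, hg⟩
    · intro i hi hmem
      by_cases hit : i = t
      · simp [hit] at hmem
      · simp only [if_neg hit, Finset.mem_filter, Finset.mem_erase] at hmem
        exact h1 i (by omega) hmem.1.2
    · intro i j hij hj
      have hit : i ≠ t := by omega
      simp only [if_neg hit]
      by_cases hjt : j = t
      · simp only [if_pos hjt]
        intro h
        exact h1 i (by omega) (h ▸ hx)
      · simp only [if_neg hjt]
        exact h2 i j hij (by omega)
    · intro i j hij hj w hw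
      have hit : i ≠ t := by omega
      rw [Finset.mem_filter, Finset.mem_erase] at hw
      simp only [if_neg hit]
      by_cases hjt : j = t
      · simp only [if_pos hjt]
        rw [dif_pos (by omega : i < t), ← hw.2]
      · simp only [if_neg hjt]
        exact h3 i j hij (by omega) w hw.1.2
    · intro i j k hij hjk hk
      have hit : i ≠ t := by omega
      have hjt : j ≠ t := by omega
      simp only [if_neg hit, if_neg hjt]
      by_cases hkt : k = t
      · simp only [if_pos hkt]
        exact h3 i j hij (by omega) x hx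
      · simp only [if_neg hkt]
        exact h4 i j k hij hjk (by omega)

lemma stepDown {n m N : ℕ} (hm : 0 < m) (hn : need m N 0 ≤ n) (h : Covers3 n m) :
    Covers2 N m := by
  classical
  obtain ⟨H, -, hK, hc⟩ := h
  -- choose a colour for each triple
  let col : Finset (Fin n) → Fin m := fun e =>
    if he : e.card = 3 then (hc e he).choose else ⟨0, hm⟩
  have hcol : ∀ e : Finset (Fin n), e.card = 3 → e ∈ H (col e) := by
    intro e he
    simp only [col, dif_pos he]
    exact (hc e he).choose_spec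
  obtain ⟨v, S, φ, h1, h2, h3, h4, h5⟩ := greedy hm hn col N le_rfl
  have hS : S.Nonempty := by
    rw [← Finset.card_pos]
    refine lt_of_lt_of_le ?_ h5
    unfold need
    exact Nat.mul_pos (by omega) (Nat.pow_pos hm)
  obtain ⟨w, hw⟩ := hS
  refine ⟨fun i => ⟨fun a b => a ≠ b ∧ φ (min a.val b.val) (max a.val b.val) = i,
    ⟨fun a b h => ⟨h.1.symm, by rw [min_comm, max_comm]; exact h.2⟩⟩, ⟨fun a h => h.1 rfl⟩⟩,
    ?_, ?_⟩
  · intro i T hT
    obtain ⟨hclique, hcard⟩ := (SimpleGraph.isNClique_iff _).1 hT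
    obtain ⟨a, b, c, hab, hbc, rfl⟩ := three_sorted T hcard
    have key : ∀ p q : Fin N, p ∈ ({a, b, c} : Finset (Fin N)) → q ∈ ({a, b, c} : Finset (Fin N)) →
        p < q → φ p.val q.val = i := by
      intro p q hp hq hpq
      have := hclique (by simpa using hp) (by simpa using hq) hpq.ne
      have h6 := this.2
      rw [min_eq_left (Fin.lt_def.1 hpq).le, max_eq_right (Fin.lt_def.1 hpq).le] at h6
      exact h6
    have e1 := key a b (by simp) (by simp) hab
    have e2 := key b c (by simp) (by simp) hbc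
    have e3 := key a c (by simp) (by simp) (hab.trans hbc)
    have hab' := Fin.lt_def.1 hab
    have hbc' := Fin.lt_def.1 hbc
    have nab := h2 _ _ hab' b.isLt
    have nbc := h2 _ _ hbc' c.isLt
    have nac := h2 _ _ (hab'.trans hbc') c.isLt
    have naw : v a.val ≠ w := fun h => h1 a.val a.isLt (h ▸ hw)
    have nbw : v b.val ≠ w := fun h => h1 b.val b.isLt (h ▸ hw)
    have ncw : v c.val ≠ w := fun h => h1 c.val c.isLt (h ▸ hw)
    apply hK i
    refine ⟨{v a.val, v b.val, v c.val, w}, ?_, ?_⟩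
    · rw [Finset.card_insert_of_notMem, Finset.card_insert_of_notMem,
        Finset.card_insert_of_notMem, Finset.card_singleton]
      · simpa using ncw
      · simp [nbc, nbw]
      · simp [nab, nac, naw]
    · intro e he hecard
      have hcol' : col e = i := by
        -- e is one of the four triples
        have hcases : e = {v a.val, v b.val, v c.val} ∨ e = {v a.val, v b.val, w} ∨
            e = {v a.val, v c.val, w} ∨ e = {v b.val, v c.val, w} := by
          by_cases m1 : v a.val ∈ e
          · by_cases m2 : v b.val ∈ e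
            · by_cases m3 : v c.val ∈ e
              · left
                symm
                apply Finset.eq_of_subset_of_card_le
                · intro t ht
                  simp only [Finset.mem_insert, Finset.mem_singleton] at ht
                  rcases ht with rfl | rfl | rfl <;> assumption
                · rw [hecard]
                  exact (Finset.card_eq_three.2 ⟨_, _, _, nab, nac, nbc, rfl⟩).ge
              · right; left
                apply Finset.eq_of_subset_of_card_le
                · intro t ht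
                  have := he ht
                  simp only [Finset.mem_insert, Finset.mem_singleton] at this ⊢
                  rcases this with h | h | h | h
                  · exact Or.inl h
                  · exact Or.inr (Or.inl h)
                  · exact absurd (h ▸ ht) m3
                  · exact Or.inr (Or.inr h)
                · rw [hecard]
                  exact Finset.card_le_three
            · right; right; left
              apply Finset.eq_of_subset_of_card_le
              · intro t ht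
                have := he ht
                simp only [Finset.mem_insert, Finset.mem_singleton] at this ⊢
                rcases this with h | h | h | h
                · exact Or.inl h
                · exact absurd (h ▸ ht) m2
                · exact Or.inr (Or.inl h)
                · exact Or.inr (Or.inr h)
              · rw [hecard]
                exact Finset.card_le_three
          · right; right; right
            apply Finset.eq_of_subset_of_card_le
            · intro t ht
              have := he ht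
              simp only [Finset.mem_insert, Finset.mem_singleton] at this ⊢
              rcases this with h | h | h | h
              · exact absurd (h ▸ ht) m1
              · exact Or.inl h
              · exact Or.inr (Or.inl h)
              · exact Or.inr (Or.inr h)
            · rw [hecard]
              exact Finset.card_le_three
        rcases hcases with rfl | rfl | rfl | rfl
        · rw [h4 _ _ _ hab' hbc' c.isLt, e1]
        · rw [h3 _ _ hab' b.isLt w hw, e1]
        · rw [h3 _ _ (hab'.trans hbc') c.isLt w hw, e3]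
        · rw [h3 _ _ hbc' c.isLt w hw, e2]
      rw [← hcol']
      exact hcol e hecard
  · intro a b hab
    exact ⟨_, hab, rfl⟩

/-! ### Numerical estimates -/

lemma pow_four_le (m : ℕ) : m ^ 4 ≤ 2 ^ (2 ^ m) := by
  rcases Nat.lt_or_ge m 4 with h | h
  · interval_cases m <;> norm_num
  · have h1 : m ^ 2 ≤ 2 ^ m := by
      induction m, h using Nat.le_induction with
      | base => norm_num
      | succ k hk ih =>
        have : (k + 1) ^ 2 ≤ 2 * k ^ 2 := by nlinarith
        calc (k + 1) ^ 2 ≤ 2 * k ^ 2 := this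
          _ ≤ 2 * 2 ^ k := by omega
          _ = 2 ^ (k + 1) := by ring
    have h2 : 2 * m ≤ 2 ^ m := le_trans (by nlinarith) h1
    calc m ^ 4 = (m ^ 2) ^ 2 := by ring
      _ ≤ (2 ^ m) ^ 2 := Nat.pow_le_pow_left h1 2
      _ = 2 ^ (2 * m) := by rw [← pow_mul, mul_comm]
      _ ≤ 2 ^ (2 ^ m) := Nat.pow_le_pow_right (by norm_num) h2

lemma sum_Ico_zero (N : ℕ) : 2 * ∑ i ∈ Finset.Ico 0 N, i = N * (N - 1) := by
  rw [← Finset.range_eq_Ico, mul_comm]
  exact Finset.sum_range_id_mul_two N

/-- If `m < clog 2 N` then the size needed is at most `2 ^ ((N-1)^3)`. -/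
lemma need_le {m N : ℕ} (hN : 3 ≤ N) (hm : m < Nat.clog 2 N) :
    need m N 0 ≤ 2 ^ ((N - 1) ^ 3) := by
  have h1 : 2 ^ m < N := (Nat.lt_clog_iff_pow_lt (by norm_num)).1 hm
  have h2 : m ^ 4 ≤ 2 ^ (N - 1) :=
    (pow_four_le m).trans (Nat.pow_le_pow_right (by norm_num) (by omega))
  unfold need
  have h3 := sum_Ico_zero N
  set s := ∑ i ∈ Finset.Ico 0 N, i with hs
  -- fourth powers
  have h4 : (N + 1 - 0) ≤ 2 ^ N := by
    have := Nat.lt_two_pow_self (n := N)
    omega
  have h5 : (m ^ s) ^ 4 ≤ 2 ^ ((N - 1) * s) := by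
    calc (m ^ s) ^ 4 = (m ^ 4) ^ s := by rw [← pow_mul, ← pow_mul, mul_comm]
      _ ≤ (2 ^ (N - 1)) ^ s := Nat.pow_le_pow_left h2 s
      _ = 2 ^ ((N - 1) * s) := by rw [← pow_mul]
  have h6 : ((N + 1 - 0) * m ^ s) ^ 4 ≤ (2 ^ ((N - 1) ^ 3)) ^ 4 := by
    calc ((N + 1 - 0) * m ^ s) ^ 4 = (N + 1 - 0) ^ 4 * (m ^ s) ^ 4 := by ring
      _ ≤ (2 ^ N) ^ 4 * 2 ^ ((N - 1) * s) :=
        Nat.mul_le_mul (Nat.pow_le_pow_left h4 4) h5
      _ = 2 ^ (4 * N + (N - 1) * s) := by rw [← pow_mul, ← pow_add, mul_comm N 4]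
      _ ≤ 2 ^ ((N - 1) ^ 3 * 4) := by
        apply Nat.pow_le_pow_right (by norm_num)
        obtain ⟨k, rfl⟩ : ∃ k, N = k + 3 := ⟨N - 3, by omega⟩
        have e1 : k + 3 - 1 = k + 2 := by omega
        rw [e1] at h3 ⊢
        have : 2 * (4 * (k + 3) + (k + 2) * s) ≤ 2 * ((k + 2) ^ 3 * 4) := by
          calc 2 * (4 * (k + 3) + (k + 2) * s) = 8 * (k + 3) + (k + 2) * (2 * s) := by ring
            _ = 8 * (k + 3) + (k + 2) * ((k + 3) * (k + 2)) := by rw [h3]
            _ ≤ 2 * ((k + 2) ^ 3 * 4) := by nlinarith [sq_nonneg k, Nat.zero_le (k ^ 3)]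
        omega
      _ = (2 ^ ((N - 1) ^ 3)) ^ 4 := by rw [← pow_mul]
  exact (Nat.pow_le_pow_iff_left (by norm_num)).1 h6

/-- Every natural number lies between consecutive cubes. -/
lemma exists_cube (L : ℕ) (hL : 0 < L) : ∃ N, (N - 1) ^ 3 < L ∧ L ≤ N ^ 3 ∧ 0 < N := by
  have hex : ∃ N, L ≤ N ^ 3 := ⟨L, by nlinarith [Nat.pow_le_pow_left hL 2, Nat.zero_le L]⟩
  refine ⟨Nat.find hex, ?_, Nat.find_spec hex, ?_⟩
  · by_contra hcon
    push Not at hcon
    rcases Nat.eq_zero_or_pos (Nat.find hex) with h0 | h0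
    · have := Nat.find_spec hex
      rw [h0] at this
      omega
    · exact Nat.find_min hex (by omega : Nat.find hex - 1 < Nat.find hex) hcon
  · rcases Nat.eq_zero_or_pos (Nat.find hex) with h0 | h0
    · have := Nat.find_spec hex
      rw [h0] at this
      omega
    · exact h0

lemma f3_pos {n : ℕ} (hn : 3 ≤ n) : 0 < f3 n := by
  rcases Nat.eq_zero_or_pos (f3 n) with h | h
  · have h0 := f3_spec n
    rw [h] at h0
    obtain ⟨H, -, -, hc⟩ := h0
    obtain ⟨i, -⟩ := hc {(⟨0, by omega⟩ : Fin n), (⟨1, by omega⟩ : Fin n),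
      (⟨2, by omega⟩ : Fin n)} (by
        rw [Finset.card_eq_three]
        exact ⟨_, _, _, by simp, by simp, by simp, rfl⟩)
    exact i.elim0
  · exact h

theorem f3_lower (n : ℕ) (hn : 3 ≤ n) : f2 (Nat.clog 2 n) ≤ 3 * f3 n := by
  have hpos := f3_pos hn
  have hLpos : 0 < Nat.clog 2 n := Nat.clog_pos (by norm_num) (by omega)
  obtain ⟨N, h1, h2, h3⟩ := exists_cube (Nat.clog 2 n) hLpos
  rcases Nat.lt_or_ge N 3 with hN | hN
  · have h4 : N ^ 3 ≤ 8 := by
      have := Nat.pow_le_pow_left (by omega : N ≤ 2) 3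
      omega
    have h5 : f2 (Nat.clog 2 n) ≤ f2 8 := f2_mono (by omega)
    have h6 : f2 8 ≤ 3 := by
      have h7 := f2_le_clog 8
      have h8 : Nat.clog 2 8 = 3 := by decide
      omega
    omega
  · have h4 : f2 (Nat.clog 2 n) ≤ 3 * f2 N := (f2_mono h2).trans (f2_cube N)
    have h5 : f2 N ≤ f3 n := by
      by_contra hcon
      push Not at hcon
      have h6 : f3 n < Nat.clog 2 N := lt_of_lt_of_le hcon (f2_le_clog N)
      have h7 : need (f3 n) N 0 ≤ n := by
        refine (need_le hN h6).trans ?_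
        have := (Nat.lt_clog_iff_pow_lt (b := 2) (by norm_num)).1 h1
        exact this.le
      exact absurd (f2_le (stepDown hpos h7 (f3_spec n))) (by omega)
    omega

/-! ### The classical bound for the graph function -/

/-- The recursive bound `r 0 = 1`, `r (m+1) = (m+1) r m + 1`. -/
def rbound : ℕ → ℕ
  | 0 => 1
  | m + 1 => (m + 1) * rbound m + 1

lemma rbound_le (m : ℕ) : rbound m ≤ 3 * m.factorial - 1 := by
  induction m with
  | zero => decide
  | succ m ih =>
    rcases Nat.eq_zero_or_pos m with h | h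
    · subst h; decide
    · have h1 : 1 ≤ m.factorial := Nat.factorial_pos m
      have h2 : rbound m + 1 ≤ 3 * m.factorial := by omega
      have h3 : (m + 1) * (rbound m + 1) ≤ (m + 1) * (3 * m.factorial) :=
        Nat.mul_le_mul_left _ h2
      have h4 : (m + 1) * (3 * m.factorial) = 3 * (m + 1).factorial := by
        rw [Nat.factorial_succ]; ring
      have h5 : rbound (m + 1) = (m + 1) * rbound m + 1 := rfl
      have h6 : (m + 1) * (rbound m + 1) = (m + 1) * rbound m + (m + 1) := by ring
      omega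

lemma ramsey_aux {V : Type} [DecidableEq V] : ∀ (m : ℕ) (G : Fin m → SimpleGraph V)
    (S : Finset V), (∀ i, (G i).CliqueFree 3) →
    (∀ a ∈ S, ∀ b ∈ S, a ≠ b → ∃ i, (G i).Adj a b) → S.card ≤ rbound m := by
  classical
  intro m
  induction m with
  | zero =>
    intro G S _ h
    by_contra hcon
    have : 1 < S.card := by
      have : rbound 0 = 1 := rfl
      omega
    obtain ⟨a, ha, b, hb, hab⟩ := Finset.one_lt_card.1 this
    obtain ⟨i, -⟩ := h a ha b hb hab
    exact i.elim0
  | succ m ih =>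
    intro G S hG h
    rcases S.eq_empty_or_nonempty with rfl | ⟨v, hv⟩
    · simp
    · have hcov : S.erase v ⊆ Finset.univ.biUnion
          (fun i : Fin (m + 1) => (S.filter (fun w => (G i).Adj v w))) := by
        intro w hw
        rw [Finset.mem_erase] at hw
        obtain ⟨i, hi⟩ := h v hv w hw.2 hw.1.symm
        simp only [Finset.mem_biUnion, Finset.mem_univ, true_and, Finset.mem_filter]
        exact ⟨i, hw.2, hi⟩
      have hcard : (S.erase v).card ≤ ∑ i : Fin (m + 1),
          (S.filter (fun w => (G i).Adj v w)).card :=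
        (Finset.card_le_card hcov).trans Finset.card_biUnion_le
      have hle : ∀ i : Fin (m + 1), (S.filter (fun w => (G i).Adj v w)).card ≤ rbound m := by
        intro i
        apply ih (fun j => G (i.succAbove j)) _ (fun j => hG _)
        intro a ha b hb hab
        rw [Finset.mem_filter] at ha hb
        obtain ⟨j, hj⟩ := h a ha.1 b hb.1 hab
        by_cases hji : j = i
        · subst hji
          exact (no_triangle (hG j) ha.2 hj hb.2).elim
        · obtain ⟨k, hk⟩ := Fin.exists_succAbove_eq hji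
          exact ⟨k, by rw [hk]; exact hj⟩
      have h1 : (S.erase v).card ≤ (m + 1) * rbound m := by
        refine hcard.trans ((Finset.sum_le_sum (fun i _ => hle i)).trans ?_)
        simp
      rw [Finset.card_erase_of_mem hv] at h1
      have h2 : rbound (m + 1) = (m + 1) * rbound m + 1 := rfl
      omega

lemma ramsey_bound {m N : ℕ} (h : Covers2 N m) : N ≤ 3 * m.factorial := by
  obtain ⟨G, hG, hc⟩ := h
  have h1 := ramsey_aux m G Finset.univ hG (fun a _ b _ hab => hc a b hab)
  rw [Finset.card_univ, Fintype.card_fin] at h1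
  have h2 := rbound_le m
  omega

/-- Explicit upper bound. -/
theorem f3_le_clog (n : ℕ) : f3 n ≤ 2 * Nat.clog 2 (Nat.clog 2 n) :=
  (f3_upper n).trans (Nat.mul_le_mul_left 2 (f2_le_clog _))

/-- Explicit lower bound, in implicit form. -/
theorem clog_le_factorial (n : ℕ) (hn : 3 ≤ n) : Nat.clog 2 n ≤ 3 * (3 * f3 n).factorial := by
  have h1 := f3_lower n hn
  have h2 := ramsey_bound (f2_spec (Nat.clog 2 n))
  exact h2.trans (Nat.mul_le_mul_left 3 (Nat.factorial_le h1))

end Pool.Agent.Hhelper55.TripleCover
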